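import Pool.Agent.Y120.K.Defs
import Pool.Agent.Y949.J.RamT

/-!
K-RAYP and K-RAYN (jobs 7348, 7349): the modular invariant on the two vertical half-lines
`Re z = 0`, `Im z > 1` and `Re z = 1/2`, `Im z > √3/2`.
-/

set_option autoImplicit false
set_option linter.all false

open Filter Topology UpperHalfPlane
open scoped Derivative ModularForm Manifold

namespace Pool.Agent.Y664.K

open Pool.Agent.TH21.MS (E4 E6 jj xx A3 A5 E4_eq E6_eq E4_q E6_q A3_ofReal A5_ofReal xx_tendsto xx_pos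
  xx_lt A3_zero A5_zero A3_an A5_an disc_ne S_inv4 S_inv6 jj_an sig_le ps ps_summable)
open Pool.Agent.Y120.J Pool.Agent.Y120.K

noncomputable section

/-- the sign -/
def ep (s : Bool) : ℝ := if s then 1 else -1

/-- the real value of `q` -/
def qq (s : Bool) (y : ℝ) : ℝ := ep s * xx y

/-- `E_4` on the half-line -/
def a (s : Bool) (y : ℝ) : ℝ := 1 + 240 * (qq s y * A3 ℝ (qq s y))

/-- `E_6` on the half-line -/
def b (s : Bool) (y : ℝ) : ℝ := 1 - 504 * (qq s y * A5 ℝ (qq s y))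

/-- the point of the upper half-plane -/
def Ry (s : Bool) (y : ℝ) (hy : 0 < y) : ℍ := ⟨ry s y, by simpa [ry] using hy⟩

theorem ry_im (s : Bool) (y : ℝ) : (ry s y).im = y := by simp [ry]

theorem ofC (s : Bool) {y : ℝ} (hy : 0 < y) : ofComplex (ry s y) = Ry s y hy := by
  rw [ofComplex_apply_of_im_pos (by rw [ry_im]; exact hy)]
  rfl

theorem exp_ry (s : Bool) (y : ℝ) :
    Complex.exp (2 * (Real.pi : ℂ) * Complex.I * ry s y) = ((qq s y : ℝ) : ℂ) := by
  have e1 : 2 * (Real.pi : ℂ) * Complex.I * ry s y =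
      2 * (Real.pi : ℂ) * Complex.I * (xs s : ℂ) + ((-(2 * Real.pi * y) : ℝ) : ℂ) := by
    unfold ry
    push_cast
    linear_combination (2 * (Real.pi : ℂ) * y) * Complex.I_sq
  rw [e1, Complex.exp_add, ← Complex.ofReal_exp]
  cases s
  · have e2 : 2 * (Real.pi : ℂ) * Complex.I * (xs false : ℂ) = Real.pi * Complex.I := by
      simp [xs]
      ring
    rw [e2, Complex.exp_pi_mul_I]
    simp [qq, ep, xx]
  · have e2 : 2 * (Real.pi : ℂ) * Complex.I * (xs true : ℂ) = 0 := by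
      simp [xs]
    rw [e2, Complex.exp_zero]
    simp [qq, ep, xx]

theorem E4_ry (s : Bool) (y : ℝ) : E4 (ry s y) = ((a s y : ℝ) : ℂ) := by
  rw [E4_q, exp_ry, A3_ofReal, a]
  push_cast
  ring

theorem E6_ry (s : Bool) (y : ℝ) : E6 (ry s y) = ((b s y : ℝ) : ℂ) := by
  rw [E6_q, exp_ry, A5_ofReal, b]
  push_cast
  ring

theorem E4v (s : Bool) {y : ℝ} (hy : 0 < y) : ModularForm.E₄ (Ry s y hy) = ((a s y : ℝ) : ℂ) := by
  rw [← E4_eq]
  exact E4_ry s y

theorem E6v (s : Bool) {y : ℝ} (hy : 0 < y) : ModularForm.E₆ (Ry s y hy) = ((b s y : ℝ) : ℂ) := by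
  rw [← E6_eq]
  exact E6_ry s y

theorem jv (s : Bool) (y : ℝ) :
    jj (ry s y) = ((1728 * a s y ^ 3 / (a s y ^ 3 - b s y ^ 2) : ℝ) : ℂ) := by
  unfold jj
  rw [E4_ry, E6_ry]
  push_cast
  rfl

theorem dne (s : Bool) {y : ℝ} (hy : 0 < y) : a s y ^ 3 - b s y ^ 2 ≠ 0 := by
  have h1 := disc_ne (Ry s y hy)
  have h2 : ((Ry s y hy : ℍ) : ℂ) = ry s y := rfl
  rw [h2, E4_ry, E6_ry] at h1
  intro h3
  apply h1
  have h4 : (((a s y ^ 3 - b s y ^ 2 : ℝ)) : ℂ) = 0 := by rw [h3]; simp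
  rw [← h4]
  push_cast
  rfl

theorem ry_deriv (s : Bool) (F : ℂ → ℂ) (y : ℝ) (F' : ℂ) (hF : HasDerivAt F F' (ry s y)) :
    HasDerivAt (fun t : ℝ => F (ry s t)) (F' * Complex.I) y := by
  have h2 : HasDerivAt (fun w : ℂ => (xs s : ℂ) + w * Complex.I) Complex.I (y : ℂ) := by
    simpa using ((hasDerivAt_id (y : ℂ)).mul_const Complex.I).const_add (xs s : ℂ)
  have h3 : HasDerivAt (fun w : ℂ => F ((xs s : ℂ) + w * Complex.I)) (F' * Complex.I) (y : ℂ) :=
    HasDerivAt.comp (y : ℂ) hF h2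
  exact h3.comp_ofReal

theorem curve (s : Bool) {f : ℍ → ℂ} (hf : MDiff f) {y : ℝ} (hy : 0 < y) :
    HasDerivAt (fun t : ℝ => (f ∘ ofComplex) (ry s t))
      (-(2 * Real.pi) * Derivative.normalizedDerivOfComplex f (Ry s y hy)) y := by
  have h0 := UpperHalfPlane.mdifferentiable_iff.1 hf
  have hopen : IsOpen {z : ℂ | 0 < z.im} := isOpen_upperHalfPlaneSet
  have hmem : ry s y ∈ {z : ℂ | 0 < z.im} := by
    show 0 < (ry s y).im
    rw [ry_im]; exact hy
  have h1 : HasDerivAt (f ∘ ofComplex) (deriv (f ∘ ofComplex) (ry s y)) (ry s y) :=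
    (h0.differentiableAt (hopen.mem_nhds hmem)).hasDerivAt
  refine (ry_deriv s _ y _ h1).congr_deriv ?_
  unfold Derivative.normalizedDerivOfComplex
  have e1 : ((Ry s y hy : ℍ) : ℂ) = ry s y := rfl
  rw [e1]
  have hpi : (Real.pi : ℂ) ≠ 0 := by exact_mod_cast Real.pi_ne_zero
  field_simp
  linear_combination (deriv (f ∘ ofComplex) (ry s y)) * Complex.I_sq

theorem re_comp {f : ℝ → ℂ} {w : ℂ} {y : ℝ} (h : HasDerivAt f w y) :
    HasDerivAt (fun t : ℝ => (f t).re) w.re y :=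
  (Complex.reCLM.hasFDerivAt (x := f y)).comp_hasDerivAt y h

theorem da (s : Bool) {y : ℝ} (hy : 0 < y) : HasDerivAt (fun t : ℝ => ((a s t : ℝ) : ℂ))
    (-(2 * Real.pi) * (3⁻¹ * (EisensteinSeries.E2 (Ry s y hy) * a s y - b s y))) y := by
  have h1 := curve s (f := fun w => ModularForm.E₄ w) (ModularFormClass.holo _) hy
  rw [(Pool.Agent.Y949.J.t_RAM46 (Ry s y hy)).1, E4v, E6v] at h1
  refine h1.congr_of_eventuallyEq ?_
  filter_upwards [lt_mem_nhds hy] with t ht
  simp only [Function.comp_apply, ofC s ht]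
  exact (E4v s ht).symm

theorem db (s : Bool) {y : ℝ} (hy : 0 < y) : HasDerivAt (fun t : ℝ => ((b s t : ℝ) : ℂ))
    (-(2 * Real.pi) * (2⁻¹ * (EisensteinSeries.E2 (Ry s y hy) * b s y - (a s y) ^ 2))) y := by
  have h1 := curve s (f := fun w => ModularForm.E₆ w) (ModularFormClass.holo _) hy
  rw [(Pool.Agent.Y949.J.t_RAM46 (Ry s y hy)).2, E4v, E6v] at h1
  refine h1.congr_of_eventuallyEq ?_
  filter_upwards [lt_mem_nhds hy] with t ht
  simp only [Function.comp_apply, ofC s ht]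
  exact (E6v s ht).symm

theorem dj (s : Bool) {y : ℝ} (hy : 0 < y) : HasDerivAt (fun t : ℝ => jj (ry s t))
    ((1728 * (2 * Real.pi) * (a s y ^ 2 * b s y) / (a s y ^ 3 - b s y ^ 2) : ℝ) : ℂ) y := by
  have h1 := da s hy
  have h2 := db s hy
  have hne : ((a s y : ℝ) : ℂ) ^ 3 - ((b s y : ℝ) : ℂ) ^ 2 ≠ 0 := by
    exact_mod_cast dne s hy
  have h3 := ((h1.pow 3).const_mul 1728).div ((h1.pow 3).sub (h2.pow 2)) hne
  have h4 : (fun t : ℝ => jj (ry s t)) = fun t : ℝ =>
      1728 * ((a s t : ℝ) : ℂ) ^ 3 / (((a s t : ℝ) : ℂ) ^ 3 - ((b s t : ℝ) : ℂ) ^ 2) := by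
    funext t
    rw [jv]
    push_cast
    rfl
  rw [h4]
  refine h3.congr_deriv ?_
  simp only [Pi.pow_apply, Pi.sub_apply]
  push_cast
  field_simp
  ring

theorem jder (s : Bool) {y : ℝ} (hy : 0 < y) : deriv jj (ry s y) * Complex.I =
    ((1728 * (2 * Real.pi) * (a s y ^ 2 * b s y) / (a s y ^ 3 - b s y ^ 2) : ℝ) : ℂ) := by
  have h1 := ry_deriv s jj y _ (jj_an (ry s y) (by rw [ry_im]; exact hy)).differentiableAt.hasDerivAt
  exact h1.unique (dj s hy)

theorem si_eq (s : Bool) : ((si s : ℤ) : ℝ) = ep s := by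
  cases s <;> simp [si, ep]

theorem ep_sq (s : Bool) : ep s * ep s = 1 := by
  cases s <;> simp [ep]

theorem hv (s : Bool) (y : ℝ) : hh s y = ep s * (1728 * a s y ^ 3 / (a s y ^ 3 - b s y ^ 2)) := by
  rw [hh, jv, Complex.ofReal_re, si_eq]

theorem dh (s : Bool) {y : ℝ} (hy : 0 < y) : HasDerivAt (hh s)
    (ep s * (1728 * (2 * Real.pi) * (a s y ^ 2 * b s y) / (a s y ^ 3 - b s y ^ 2))) y := by
  have h1 := (re_comp (dj s hy)).const_mul (ep s)
  rw [Complex.ofReal_re] at h1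
  have h2 : hh s = fun t => ep s * (jj (ry s t)).re := by
    funext t
    rw [hh, si_eq]
  rw [h2]
  exact h1

/-- a function whose derivative is positive at its zeros stays positive -/
theorem cross {f : ℝ → ℝ} {y0 : ℝ} (f' : ℝ → ℝ) (hd : ∀ y, y0 ≤ y → HasDerivAt f (f' y) y)
    (h0 : f y0 = 0) (hp : ∀ y, y0 ≤ y → f y = 0 → 0 < f' y) (y : ℝ) (hy : y0 < y) : 0 < f y := by
  have hc : ContinuousOn f (Set.Ici y0) := fun z hz => (hd z hz).continuousAt.continuousWithinAt
  -- positive immediately to the right of a zero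
  have hr : ∀ z, y0 ≤ z → f z = 0 → ∀ᶠ w in 𝓝[>] z, 0 < f w := by
    intro z hz hfz
    have h1 := (hasDerivAt_iff_tendsto_slope.1 (hd z hz)).eventually (lt_mem_nhds (hp z hz hfz))
    have h2 : ∀ᶠ w in 𝓝[>] z, 0 < slope f z w :=
      h1.filter_mono (nhdsWithin_mono z fun w hw => ne_of_gt hw)
    filter_upwards [h2, self_mem_nhdsWithin] with w hw hw2
    rw [slope_def_field, hfz, sub_zero] at hw
    have h3 : 0 < w - z := sub_pos.2 hw2
    exact (div_pos_iff_of_pos_right h3).1 hw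
  have hl : ∀ z, y0 < z → f z = 0 → ∀ᶠ w in 𝓝[<] z, f w < 0 := by
    intro z hz hfz
    have h1 := (hasDerivAt_iff_tendsto_slope.1 (hd z hz.le)).eventually
      (lt_mem_nhds (hp z hz.le hfz))
    have h2 : ∀ᶠ w in 𝓝[<] z, 0 < slope f z w :=
      h1.filter_mono (nhdsWithin_mono z fun w hw => ne_of_lt hw)
    filter_upwards [h2, self_mem_nhdsWithin] with w hw hw2
    rw [slope_def_field, hfz, sub_zero] at hw
    have h3 : w - z < 0 := sub_neg.2 hw2
    rcases div_pos_iff.1 hw with h4 | h4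
    · exact absurd h4.2 (not_lt.2 h3.le)
    · exact h4.1
  by_contra hle
  push Not at hle
  -- a point to the right of y0 with f > 0
  obtain ⟨u, hu0, huy, hfu⟩ : ∃ u, y0 < u ∧ u < y ∧ 0 < f u := by
    have h1 := hr y0 le_rfl h0
    have h2 : ∀ᶠ w in 𝓝[>] y0, w < y := (eventually_lt_nhds hy).filter_mono nhdsWithin_le_nhds
    obtain ⟨u, h3, h4, h5⟩ := (h1.and (h2.and self_mem_nhdsWithin)).exists
    exact ⟨u, h5, h4, h3⟩
  -- the first zero after u
  have hcu : ContinuousOn f (Set.Icc u y) := hc.mono fun w hw => (hu0.le.trans hw.1)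
  obtain ⟨S, hS⟩ : ∃ S : Set ℝ, S = {w | w ∈ Set.Icc u y ∧ f w ≤ 0} := ⟨_, rfl⟩
  have hSy : y ∈ S := by rw [hS]; exact ⟨⟨huy.le, le_rfl⟩, hle⟩
  have hSc : IsClosed S := by
    rw [hS]
    exact hcu.preimage_isClosed_of_isClosed isClosed_Icc isClosed_Iic
  have hSb : BddBelow S := ⟨u, fun w hw => by rw [hS] at hw; exact hw.1.1⟩
  have hz : sInf S ∈ S := hSc.csInf_mem ⟨y, hSy⟩ hSb
  obtain ⟨z, hzd⟩ : ∃ z, z = sInf S := ⟨_, rfl⟩
  rw [← hzd] at hz
  have hmin : ∀ w, w ∈ Set.Icc u y → w < z → 0 < f w := by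
    intro w hw hwz
    by_contra h
    push Not at h
    have : w ∈ S := by rw [hS]; exact ⟨hw, h⟩
    exact absurd (csInf_le hSb this) (not_le.2 (hzd ▸ hwz))
  rw [hS] at hz
  have huz : u < z := by
    rcases eq_or_lt_of_le hz.1.1 with h | h
    · rw [← h] at hz
      exact absurd hz.2 (not_le.2 hfu)
    · exact h
  have hfz : f z = 0 := by
    apply le_antisymm hz.2
    have h1 : ContinuousWithinAt f (Set.Iio z) z :=
      (hd z (hu0.le.trans huz.le)).continuousAt.continuousWithinAt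
    refine ge_of_tendsto h1 ?_
    have h2 : ∀ᶠ w in 𝓝[<] z, u < w := (eventually_gt_nhds huz).filter_mono nhdsWithin_le_nhds
    filter_upwards [h2, self_mem_nhdsWithin] with w h3 h4
    exact (hmin w ⟨h3.le, (le_of_lt h4).trans hz.1.2⟩ h4).le
  have h5 := hl z (hu0.trans huz) hfz
  have h2 : ∀ᶠ w in 𝓝[<] z, u < w := (eventually_gt_nhds huz).filter_mono nhdsWithin_le_nhds
  obtain ⟨w, h6, h7, h8⟩ := (h5.and (h2.and self_mem_nhdsWithin)).exists
  exact absurd h6 (not_lt.2 (hmin w ⟨h7.le, (le_of_lt h8).trans hz.1.2⟩ h8).le)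

theorem re_a (s : Bool) {y : ℝ} (hy : 0 < y) : HasDerivAt (a s)
    (-(2 * Real.pi) * (3⁻¹ * (EisensteinSeries.E2 (Ry s y hy) * a s y - b s y))).re y := by
  have h := re_comp (da s hy)
  simp only [Complex.ofReal_re] at h
  exact h

theorem re_b (s : Bool) {y : ℝ} (hy : 0 < y) : HasDerivAt (b s)
    (-(2 * Real.pi) * (2⁻¹ * (EisensteinSeries.E2 (Ry s y hy) * b s y - (a s y) ^ 2))).re y := by
  have h := re_comp (db s hy)
  simp only [Complex.ofReal_re] at h
  exact h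

theorem a_cont (s : Bool) : ContinuousOn (a s) (Set.Ioi 0) := fun _ hy =>
  (re_a s hy).continuousAt.continuousWithinAt

theorem b_cont (s : Bool) : ContinuousOn (b s) (Set.Ioi 0) := fun _ hy =>
  (re_b s hy).continuousAt.continuousWithinAt

theorem Ys_pos (s : Bool) : 0 < Ys s := by
  cases s
  · simp [Ys]
  · simp [Ys]

theorem A3_nonneg (x : ℝ) (hx : 0 ≤ x) : 0 ≤ A3 ℝ x := by
  unfold A3 ps
  exact tsum_nonneg fun m => mul_nonneg (Nat.cast_nonneg _) (pow_nonneg hx m)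

theorem a_true (y : ℝ) : 1 ≤ a true y := by
  have h1 : 0 ≤ qq true y := by
    have := xx_pos y
    simp only [qq, ep, if_true, one_mul]
    exact this.le
  have h2 := mul_nonneg h1 (A3_nonneg _ h1)
  unfold a
  linarith

theorem b_true_one : b true 1 = 0 := by
  have hz : ((Ry true 1 one_pos : ℍ) : ℂ) = Complex.I := by
    show ry true 1 = Complex.I
    simp [ry, xs]
  have hS : ModularGroup.S • (Ry true 1 one_pos) = Ry true 1 one_pos := by
    apply UpperHalfPlane.ext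
    rw [modular_S_smul]
    show (-((Ry true 1 one_pos : ℍ) : ℂ))⁻¹ = _
    rw [hz]
    rw [inv_eq_iff_eq_inv, Complex.inv_I]
  have h1 := S_inv6 (Ry true 1 one_pos)
  rw [hS, E6v, hz] at h1
  have h2 : Complex.I ^ 6 = -1 := by
    have e : Complex.I ^ 6 = (Complex.I ^ 2) ^ 3 := by ring
    rw [e, Complex.I_sq]
    norm_num
  rw [h2] at h1
  have h3 : ((b true 1 : ℝ) : ℂ) = 0 := by linear_combination h1 / 2
  exact_mod_cast h3

theorem s3 : √3 * √3 = (3 : ℝ) := Real.mul_self_sqrt (by norm_num)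

theorem a_false_rho : a false (√3 / 2) = 0 := by
  have hp : (0 : ℝ) < √3 / 2 := by positivity
  obtain ⟨ρ, hρ⟩ : ∃ ρ : ℂ, ρ = ry false (√3 / 2) := ⟨_, rfl⟩
  have hz : ((Ry false (√3 / 2) hp : ℍ) : ℂ) = ρ := by rw [hρ]; rfl
  have hquad : ρ * (ρ - 1) = -1 := by
    rw [hρ]
    have h3 : ((√3 : ℝ) : ℂ) * ((√3 : ℝ) : ℂ) = 3 := by exact_mod_cast s3
    simp only [ry, xs, Bool.false_eq_true, if_false]
    push_cast
    linear_combination (((√3 : ℝ) : ℂ) * ((√3 : ℝ) : ℂ) / 4) * Complex.I_sq - h3 / 4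
  have hρ0 : ρ ≠ 0 := by
    intro h
    rw [h] at hquad
    norm_num at hquad
  have hS : ((ModularGroup.S • (Ry false (√3 / 2) hp) : ℍ) : ℂ) = ρ - 1 := by
    rw [modular_S_smul]
    show (-((Ry false (√3 / 2) hp : ℍ) : ℂ))⁻¹ = _
    rw [hz]
    rw [inv_eq_iff_eq_inv]
    refine eq_inv_of_mul_eq_one_left ?_
    linear_combination -hquad
  have h1 := S_inv4 (Ry false (√3 / 2) hp)
  rw [← E4_eq, ← E4_eq, hS, hz] at h1
  have hper : E4 (ρ - 1) = E4 ρ := by
    rw [E4_q, E4_q]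
    have e : Complex.exp (2 * (Real.pi : ℂ) * Complex.I * (ρ - 1)) =
        Complex.exp (2 * (Real.pi : ℂ) * Complex.I * ρ) := by
      rw [mul_sub, mul_one, Complex.exp_sub, Complex.exp_two_pi_mul_I, div_one]
    rw [e]
  rw [hper] at h1
  have h4 : ρ ^ 4 = -ρ := by linear_combination (ρ ^ 2 + ρ) * hquad
  rw [h4] at h1
  have h5 : (1 + ρ) * E4 ρ = 0 := by linear_combination h1
  have h6 : (1 + ρ) ≠ 0 := by
    intro h
    have h7 : ρ = -1 := by linear_combination h
    rw [h7] at hquad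
    norm_num at hquad
  have h8 : E4 ρ = 0 := (mul_eq_zero.1 h5).resolve_left h6
  rw [hρ, E4_ry] at h8
  exact_mod_cast h8

theorem six (m : ℕ) : (m + 2) ^ 6 ≤ 64 * 12 ^ m := by
  induction m with
  | zero => norm_num
  | succ m ih =>
    have h1 : 2 * (m + 1 + 2) ≤ 3 * (m + 2) := by omega
    have h2 := Nat.pow_le_pow_left h1 6
    rw [mul_pow, mul_pow] at h2
    have h3 : 12 ^ (m + 1) = 12 * 12 ^ m := by ring
    rw [h3]
    norm_num at h2
    omega

theorem A5_neg (r : ℝ) (h0 : 0 ≤ r) (hr : r ≤ 1 / 100) : 0 ≤ A5 ℝ (-r) := by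
  have hs : Summable fun m : ℕ => ((ArithmeticFunction.sigma 5 (m + 1) : ℕ) : ℝ) * r ^ m :=
    ps_summable _ 6 (sig_le 5) r h0 (by linarith)
  have hs' : Summable fun m : ℕ => ((ArithmeticFunction.sigma 5 (m + 1) : ℕ) : ℝ) * (-r) ^ m := by
    refine Summable.of_norm ?_
    refine hs.congr fun m => ?_
    rw [norm_mul, norm_pow, norm_neg, Real.norm_of_nonneg h0, Real.norm_of_nonneg (Nat.cast_nonneg _)]
  unfold A5 ps
  change 0 ≤ ∑' m : ℕ, ((ArithmeticFunction.sigma 5 (m + 1) : ℕ) : ℝ) * (-r) ^ m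
  rw [hs'.tsum_eq_zero_add]
  have hg : Summable fun m : ℕ => 64 * r * (12 * r) ^ m :=
    (summable_geometric_of_lt_one (by positivity) (by linarith)).mul_left _
  have hg2 : ∑' m : ℕ, 64 * r * (12 * r) ^ m = 64 * r * (1 - 12 * r)⁻¹ := by
    rw [tsum_mul_left, tsum_geometric_of_lt_one (by positivity) (by linarith)]
  have hb : ∀ m : ℕ, -(64 * r * (12 * r) ^ m) ≤
      ((ArithmeticFunction.sigma 5 (m + 1 + 1) : ℕ) : ℝ) * (-r) ^ (m + 1) := by
    intro m
    have h1 : |((ArithmeticFunction.sigma 5 (m + 1 + 1) : ℕ) : ℝ) * (-r) ^ (m + 1)| ≤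
        64 * r * (12 * r) ^ m := by
      rw [abs_mul, abs_pow, abs_neg, abs_of_nonneg h0, abs_of_nonneg (Nat.cast_nonneg _)]
      have h2 : ((ArithmeticFunction.sigma 5 (m + 1 + 1) : ℕ) : ℝ) ≤ 64 * 12 ^ m := by
        have h3 := (sig_le 5 (m + 1)).trans (six m)
        exact_mod_cast h3
      calc ((ArithmeticFunction.sigma 5 (m + 1 + 1) : ℕ) : ℝ) * r ^ (m + 1)
          ≤ 64 * 12 ^ m * r ^ (m + 1) := mul_le_mul_of_nonneg_right h2 (by positivity)
        _ = 64 * r * (12 * r) ^ m := by rw [mul_pow]; ring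
    exact (abs_le.1 h1).1
  have h4 := Summable.tsum_le_tsum hb hg.neg ((summable_nat_add_iff 1).2 hs')
  rw [tsum_neg, hg2] at h4
  have h5 : 64 * r * (1 - 12 * r)⁻¹ ≤ 1 := by
    rw [← div_eq_mul_inv, div_le_one (by linarith)]
    linarith
  have h6 : ((ArithmeticFunction.sigma 5 (0 + 1) : ℕ) : ℝ) * (-r) ^ 0 = 1 := by simp
  rw [h6]
  linarith

theorem xx_small {y : ℝ} (hy : √3 / 2 ≤ y) : xx y ≤ 1 / 100 := by
  unfold xx
  rw [Real.exp_neg, one_div]
  apply inv_anti₀ (by norm_num)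
  have h3 : (1.7 : ℝ) ≤ √3 := Real.le_sqrt_of_sq_le (by norm_num)
  have h4 := Real.pi_gt_three
  have h5 : (5 : ℝ) ≤ 2 * Real.pi * y := by nlinarith
  have h6 : (2.7 : ℝ) ≤ Real.exp 1 := by
    have := Real.exp_one_gt_d9
    linarith
  calc (100 : ℝ) ≤ 2.7 ^ 5 := by norm_num
    _ ≤ Real.exp 1 ^ 5 := pow_le_pow_left₀ (by norm_num) h6 5
    _ = Real.exp 5 := by rw [← Real.exp_nat_mul]; norm_num
    _ ≤ Real.exp (2 * Real.pi * y) := Real.exp_le_exp.2 h5

theorem b_false {y : ℝ} (hy : √3 / 2 ≤ y) : 1 ≤ b false y := by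
  have h1 := A5_neg (xx y) (xx_pos y).le (xx_small hy)
  have h2 : qq false y = -xx y := by simp [qq, ep]
  unfold b
  rw [h2]
  have := mul_nonneg (xx_pos y).le h1
  linarith

theorem ab_pos (s : Bool) (y : ℝ) (hy : Ys s < y) : 0 < a s y ∧ 0 < b s y := by
  cases s
  · have hY : Ys false = √3 / 2 := by simp [Ys]
    rw [hY] at hy
    refine ⟨?_, by linarith [b_false hy.le]⟩
    have hp : (0 : ℝ) < √3 / 2 := by positivity
    have hd : ∀ y, √3 / 2 ≤ y → HasDerivAt (a false) ((if h : 0 < y then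
        (-(2 * Real.pi) * (3⁻¹ * (EisensteinSeries.E2 (Ry false y h) * a false y - b false y))).re
        else 0)) y := by
      intro y hy
      rw [dif_pos (hp.trans_le hy)]
      exact re_a false (hp.trans_le hy)
    refine cross _ hd a_false_rho (fun y hy h0 => ?_) y hy
    rw [dif_pos (hp.trans_le hy), h0]
    have e : (-(2 * (Real.pi : ℂ)) * (3⁻¹ * (EisensteinSeries.E2 (Ry false y (hp.trans_le hy)) *
        ((0 : ℝ) : ℂ) - b false y))) = ((2 * Real.pi * (3⁻¹ * b false y) : ℝ) : ℂ) := by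
      push_cast
      ring
    rw [e, Complex.ofReal_re]
    have := b_false hy
    have := Real.pi_pos
    positivity
  · have hY : Ys true = 1 := by simp [Ys]
    rw [hY] at hy
    refine ⟨by linarith [a_true y], ?_⟩
    have hp : (0 : ℝ) < 1 := one_pos
    have hd : ∀ y, 1 ≤ y → HasDerivAt (b true) ((if h : 0 < y then
        (-(2 * Real.pi) * (2⁻¹ * (EisensteinSeries.E2 (Ry true y h) * b true y - (a true y) ^ 2))).re
        else 0)) y := by
      intro y hy
      rw [dif_pos (hp.trans_le hy)]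
      exact re_b true (hp.trans_le hy)
    refine cross _ hd b_true_one (fun y hy h0 => ?_) y hy
    rw [dif_pos (hp.trans_le hy), h0]
    have e : (-(2 * (Real.pi : ℂ)) * (2⁻¹ * (EisensteinSeries.E2 (Ry true y (hp.trans_le hy)) *
        ((0 : ℝ) : ℂ) - (a true y : ℂ) ^ 2))) = ((2 * Real.pi * (2⁻¹ * a true y ^ 2) : ℝ) : ℂ) := by
      push_cast
      ring
    rw [e, Complex.ofReal_re]
    have := a_true y
    have := Real.pi_pos
    positivity

theorem disc_pos (s : Bool) (y : ℝ) (hy : Ys s ≤ y) : 0 < ep s * (a s y ^ 3 - b s y ^ 2) := by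
  by_contra hle
  push Not at hle
  have hc : ContinuousOn (fun y => ep s * (a s y ^ 3 - b s y ^ 2)) (Set.Icc (Ys s) y) := by
    have hsub : Set.Icc (Ys s) y ⊆ Set.Ioi 0 := fun w hw => (Ys_pos s).trans_le hw.1
    exact (continuousOn_const).mul ((((a_cont s).mono hsub).pow 3).sub (((b_cont s).mono hsub).pow 2))
  have h0 : 0 < ep s * (a s (Ys s) ^ 3 - b s (Ys s) ^ 2) := by
    cases s
    · have hY : Ys false = √3 / 2 := by simp [Ys]
      rw [hY, a_false_rho]
      have := b_false (le_refl (√3 / 2))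
      simp only [ep, Bool.false_eq_true, if_false]
      have h2 : 0 < b false (√3 / 2) ^ 2 := by positivity
      linarith
    · have hY : Ys true = 1 := by simp [Ys]
      rw [hY, b_true_one]
      have := a_true 1
      simp only [ep, if_true]
      have h2 : 0 < a true 1 ^ 3 := by positivity
      linarith
  obtain ⟨c, hc1, hc2⟩ := intermediate_value_Icc' hy hc ⟨hle, h0.le⟩
  have h1 := dne s ((Ys_pos s).trans_le hc1.1)
  have h2 : ep s ≠ 0 := by cases s <;> simp [ep]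
  rcases mul_eq_zero.1 hc2 with h | h
  · exact h2 h
  · exact h1 h

theorem qq_tendsto (s : Bool) : Tendsto (qq s) atTop (𝓝 0) := by
  have h := xx_tendsto.const_mul (ep s)
  rw [mul_zero] at h
  exact h

theorem a_lim (s : Bool) : Tendsto (a s) atTop (𝓝 1) := by
  have h0 : ContinuousAt (A3 ℝ) 0 := (A3_an ℝ 0 (by simp)).continuousAt
  have h1 := h0.tendsto.comp (qq_tendsto s)
  have h2 := (((qq_tendsto s).mul h1).const_mul 240).const_add 1
  simp only [zero_mul, mul_zero, add_zero] at h2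
  exact h2

theorem b_lim (s : Bool) : Tendsto (b s) atTop (𝓝 1) := by
  have h0 : ContinuousAt (A5 ℝ) 0 := (A5_an ℝ 0 (by simp)).continuousAt
  have h1 := h0.tendsto.comp (qq_tendsto s)
  have h2 := (((qq_tendsto s).mul h1).const_mul 504).const_sub 1
  simp only [zero_mul, mul_zero, sub_zero] at h2
  exact h2

theorem ray (s : Bool) : T_RAY s := by
  have hee : ep s ≠ 0 := by cases s <;> simp [ep]
  have hinv : ∀ y, 1 / (ep s * (a s y ^ 3 - b s y ^ 2)) = ep s / (a s y ^ 3 - b s y ^ 2) := by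
    intro y
    have h1 := ep_sq s
    have h2 : 1 / ep s = ep s := by
      rw [div_eq_iff hee, h1]
    rw [one_div, mul_inv, ← one_div (ep s), h2, div_eq_mul_inv]
  have hdpos : ∀ y, Ys s < y →
      0 < ep s * (1728 * (2 * Real.pi) * (a s y ^ 2 * b s y) / (a s y ^ 3 - b s y ^ 2)) := by
    intro y hy
    have h1 := ab_pos s y hy
    have h2 := disc_pos s y hy.le
    have e : ep s * (1728 * (2 * Real.pi) * (a s y ^ 2 * b s y) / (a s y ^ 3 - b s y ^ 2)) =
        1728 * (2 * Real.pi) * (a s y ^ 2 * b s y) * (ep s / (a s y ^ 3 - b s y ^ 2)) := by ring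
    rw [e, ← hinv]
    have := Real.pi_pos
    have h3 := h1.1
    have h4 := h1.2
    positivity
  refine ⟨?_, ?_, ?_, ?_, ?_⟩
  · intro y hy
    rw [hv, jv]
    have h1 : ((si s : ℤ) : ℂ) = ((ep s : ℝ) : ℂ) := by
      rw [← si_eq]
      push_cast
      rfl
    rw [h1, ← Complex.ofReal_mul, ← mul_assoc, ep_sq, one_mul]
  · rw [hv]
    cases s
    · have hY : Ys false = √3 / 2 := by simp [Ys]
      rw [hY, a_false_rho]
      simp [Js]
    · have hY : Ys true = 1 := by simp [Ys]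
      rw [hY, b_true_one]
      have := a_true 1
      have h2 : a true 1 ≠ 0 := by positivity
      simp only [Js, ep, if_true]
      field_simp
      ring
  · apply strictMonoOn_of_deriv_pos (convex_Ici _)
    · intro y hy
      exact (dh s ((Ys_pos s).trans_le hy)).continuousAt.continuousWithinAt
    · intro y hy
      rw [interior_Ici] at hy
      rw [(dh s ((Ys_pos s).trans hy)).deriv]
      exact hdpos y hy
  · intro y hy h0
    have h1 := jder s ((Ys_pos s).trans hy)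
    rw [h0, zero_mul] at h1
    have h2 : (1728 * (2 * Real.pi) * (a s y ^ 2 * b s y) / (a s y ^ 3 - b s y ^ 2) : ℝ) = 0 := by
      exact_mod_cast h1.symm
    have h3 := hdpos y hy
    rw [h2, mul_zero] at h3
    exact lt_irrefl _ h3
  · have h1 : Tendsto (fun y => 1728 * a s y ^ 3) atTop (𝓝 1728) := by
      have := ((a_lim s).pow 3).const_mul 1728
      simpa using this
    have h2 : Tendsto (fun y => ep s * (a s y ^ 3 - b s y ^ 2)) atTop (𝓝[>] 0) := by
      rw [tendsto_nhdsWithin_iff]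
      refine ⟨?_, ?_⟩
      · have := (((a_lim s).pow 3).sub ((b_lim s).pow 2)).const_mul (ep s)
        simpa using this
      · filter_upwards [eventually_ge_atTop (Ys s)] with y hy using disc_pos s y hy
    have h3 := h2.inv_tendsto_nhdsGT_zero
    have h4 := Tendsto.pos_mul_atTop (by norm_num : (0 : ℝ) < 1728) h1 h3
    refine h4.congr fun y => ?_
    rw [hv, Pi.inv_apply, ← one_div, hinv]
    ring

theorem t_rayp : T_RAY true := ray true

theorem t_rayn : T_RAY false := ray false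

end

end Pool.Agent.Y664.K
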